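import Mathlib
import Pool.Agent.H31.TabTree

set_option autoImplicit false
open Pool.Agent.H31 Pool.Agent.H31.TabDefs

namespace Pool.Agent.Results.MP_291af2_co.Rigid

theorem result (k : ℕ) (hk : 1 ≤ k) (f : tree (fun c => c.1 < k) ≃g tree (fun c => c.1 < k))
    (T : {l // Std (fun c => c.1 < k) l}) : f T = T :=
  TabTree.rigid ⟨hk, fun _ _ _ h _ => h, fun _ _ _ h a => a.trans_lt h, fun X =>
    ((Set.finite_Iio k).prod (Set.finite_Iic X)).subset fun _ h => h⟩ f T

end Pool.Agent.Results.MP_291af2_co.Rigid
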